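import Pool.Agent.Lib.NSI.Z03
import Pool.Agent.Lib.NSI.X4

/-!
# MP_13a829_lc : Nsi is a non-principal rational cone

`Nsi` is the family of the context-free languages without strict iterative pairs.  It is a rational
cone (Boasson), and it is not principal: there is no language `U` in `Nsi` whose images under rational
transductions are all languages of `Nsi`.

Idea of the proof.  Fix a machine (a two-counter machine with an undecidable halting problem).  For
every input `E` there is a context-free language `K E` whose words code the failures of a computation
with input `E`; if the computation does not halt then `K E` has no strict iterative pair.  If the
computation halts, every grammar whose language agrees with `K E` on the words of length at most a
bound (a primitive recursive function of the size of the grammar and of `E`) generates a language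
with a strict iterative pair.  If `U` were a generator of `Nsi` then `the machine does not halt on E`
would be recursively enumerable: search a transducer `τ` such that `τ(U)` agrees with `K E` up to
the bound.
-/

set_option autoImplicit false

namespace Pool.Agent.Results.MP_13a829_lc.NotPrincipal

open NSI

/-- **`Nsi` is a non-principal rational cone.**  The family of the context-free languages without
strict iterative pairs is closed under rational transductions, and no language `U` of the family
generates it: for no `U` in the family are the images `τ(U)` under all rational transductions `τ`
exactly the languages of the family. -/
theorem result : IsCone NsiFamily ∧ ¬ Principal NsiFamily := ⟨nsi_cone, nsi_not_principal⟩

end Pool.Agent.Results.MP_13a829_lc.NotPrincipal
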